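import Pool.Agent.Helper40.US.Count
import Pool.Agent.Helper14.SS.Main

/-!
# An unbounded scale which stays in the Boolean closure of the spectra
-/

set_option autoImplicit false

namespace Pool.Agent.Helper40.US

open FirstOrder FirstOrder.Language Pool.Agent.Helper20.Spectra Pool.Agent.Helper14.SS Filter

/-- The Boolean closure of the class of all spectra: `A` belongs to every family of sets which
contains all spectra and is closed under complements and intersections. -/
def BoolSpectrum (A : Set ℕ) : Prop :=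
  ∀ D : Set (Set ℕ), (∀ B, IsSpectrum B → B ∈ D) → (∀ B ∈ D, Bᶜ ∈ D) →
    (∀ B ∈ D, ∀ C ∈ D, B ∩ C ∈ D) → A ∈ D

lemma isSpectrum_ge (j : ℕ) : IsSpectrum {n | 1 ≤ n ∧ j ≤ n} := by
  have h : IsRudimentary {n | 1 ≤ n ∧ j ≤ n} := by
    rw [isRudimentary_iff]
    refine ((Rud.le (k := 1) 1 (MvPolynomial.X 0)).inter _ _ _
      (Rud.le (k := 1) (MvPolynomial.C j) (MvPolynomial.X 0))).congr ?_
    ext v
    simp
  exact h.isSpectrum (by rintro ⟨h3, _⟩; omega)

theorem unbounded_scale : ∃ s : ℕ → ℕ, (∀ b, ∃ n, b < s n) ∧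
    ∀ A : Set ℕ, SetSpectrum s A → BoolSpectrum A := by
  classical
  obtain ⟨A, hA1, hA2⟩ := enumeration
  have hA : ∀ i v, IsSpectrum (A i v) := fun i v =>
    (smallSets.2.2.2 (fun _ => v) (fun _ _ _ => le_refl v) ⟨v, fun _ => le_refl v⟩ (A i v)).1
      (hA1 i v)
  obtain ⟨W, hW⟩ : ∃ W : Ultrafilter ℕ, W = hyperfilter ℕ := ⟨_, rfl⟩
  have hge : ∀ j : ℕ, ∀ᶠ n in (W : Filter ℕ), j ≤ n := by
    intro j
    have h1 : ∀ᶠ n in (cofinite : Filter ℕ), j ≤ n := by
      rw [Nat.cofinite_eq_atTop]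
      exact eventually_ge_atTop j
    rw [hW]
    exact h1.filter_mono hyperfilter_le_cofinite
  have hdec : ∀ (P : ℕ → Prop), ∀ᶠ n in (W : Filter ℕ), (P n ↔ ∀ᶠ m in (W : Filter ℕ), P m) := by
    intro P
    by_cases h : ∀ᶠ m in (W : Filter ℕ), P m
    · exact h.mono (fun n hn => ⟨fun _ => h, fun _ => hn⟩)
    · have h2 : ∀ᶠ m in (W : Filter ℕ), ¬ P m := Ultrafilter.eventually_not.2 h
      exact h2.mono (fun n hn => ⟨fun h3 => absurd h3 hn, fun h3 => absurd h3 h⟩)
  obtain ⟨b, hb⟩ : ∃ b : ℕ → ℕ → Prop, b = fun i v => ∀ᶠ n in (W : Filter ℕ), n ∈ A i v :=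
    ⟨_, rfl⟩
  obtain ⟨bb, hbb⟩ : ∃ bb : ℕ → Prop, bb = fun i => ∀ᶠ v in (W : Filter ℕ), b i v := ⟨_, rfl⟩
  have hv : ∀ j : ℕ, ∃ v, j ≤ v ∧ ∀ i < j, (b i v ↔ bb i) := by
    intro j
    have h1 : ∀ᶠ v in (W : Filter ℕ), ∀ i ∈ Set.Iio j, (b i v ↔ bb i) := by
      rw [eventually_all_finite (Set.finite_Iio j)]
      intro i _
      rw [hbb]
      exact hdec (fun v => b i v)
    exact ((hge j).and h1).exists
  choose v hv1 hv2 using hv
  obtain ⟨U, hU⟩ : ∃ U : ℕ → Set ℕ, U = fun j =>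
    {n | ∀ j' ≤ j, ∀ i < j', (n ∈ A i (v j') ↔ bb i)} := ⟨_, rfl⟩
  have hUW : ∀ j, ∀ᶠ n in (W : Filter ℕ), n ∈ U j := by
    intro j
    rw [hU]
    show ∀ᶠ n in (W : Filter ℕ), ∀ j' ∈ Set.Iic j, ∀ i ∈ Set.Iio j', (n ∈ A i (v j') ↔ bb i)
    rw [eventually_all_finite (Set.finite_Iic j)]
    intro j' _
    rw [eventually_all_finite (Set.finite_Iio j')]
    intro i hi
    have h1 := hv2 j' i hi
    rw [← h1, hb]
    exact hdec (fun n => n ∈ A i (v j'))
  have hUm : ∀ {j j' : ℕ} {n : ℕ}, j ≤ j' → n ∈ U j' → n ∈ U j := by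
    intro j j' n hj hn
    rw [hU] at hn ⊢
    exact fun j₁ h1 i hi => hn j₁ (h1.trans hj) i hi
  have hU0 : ∀ n, n ∈ U 0 := by
    intro n
    rw [hU]
    intro j' hj' i hi
    omega
  obtain ⟨J, hJ⟩ : ∃ J : ℕ → ℕ, J = fun n => Nat.findGreatest (fun j => n ∈ U j) n := ⟨_, rfl⟩
  have hJU : ∀ n, n ∈ U (J n) := by
    intro n
    rw [hJ]
    exact Nat.findGreatest_spec (P := fun j => n ∈ U j) (Nat.zero_le n) (hU0 n)
  have hJle : ∀ n, J n ≤ n := by
    intro n
    rw [hJ]
    exact Nat.findGreatest_le n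
  have hJge : ∀ n j, j ≤ n → n ∈ U j → j ≤ J n := by
    intro n j hj hn
    rw [hJ]
    exact Nat.le_findGreatest hj hn
  refine ⟨fun n => v (J n), fun c => ?_, fun B hB D hD1 hD2 hD3 => ?_⟩
  · obtain ⟨n, h1, h2⟩ := ((hge (c + 1)).and (hUW (c + 1))).exists
    have h3 := hJge n (c + 1) h1 h2
    have h4 := hv1 (J n)
    exact ⟨n, by show c < v (J n); omega⟩
  · -- closure properties of `D`
    have hDu : (Set.univ : Set ℕ) ∈ D := by
      have h1 := hD1 _ (hA 0 0)
      have h2 := hD2 _ (hD3 _ h1 _ (hD2 _ h1))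
      rwa [Set.inter_compl_self, Set.compl_empty] at h2
    have hDe : (∅ : Set ℕ) ∈ D := by
      have := hD2 _ hDu
      rwa [Set.compl_univ] at this
    have hDU : ∀ B ∈ D, ∀ C ∈ D, B ∪ C ∈ D := by
      intro B hB C hC
      have h1 := hD2 _ (hD3 _ (hD2 _ hB) _ (hD2 _ hC))
      rwa [Set.compl_inter, compl_compl, compl_compl] at h1
    have hDc : ∀ P : Prop, {n : ℕ | P} ∈ D := by
      intro P
      by_cases h : P
      · have : {n : ℕ | P} = Set.univ := by ext n; simp [h]
        rw [this]; exact hDu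
      · have : {n : ℕ | P} = ∅ := by ext n; simp [h]
        rw [this]; exact hDe
    have hDi : ∀ (B : Set ℕ) (P : Prop), B ∈ D → {n | n ∈ B ↔ P} ∈ D := by
      intro B P hB
      by_cases h : P
      · have : {n | n ∈ B ↔ P} = B := by ext n; simp [h]
        rw [this]; exact hB
      · have : {n | n ∈ B ↔ P} = Bᶜ := by ext n; simp [h]
        rw [this]; exact hD2 _ hB
    have hDb : ∀ (Q : ℕ → Set ℕ), (∀ i, Q i ∈ D) → ∀ k : ℕ, {n | ∀ i < k, n ∈ Q i} ∈ D := by
      intro Q hQ k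
      induction k with
      | zero =>
        have : {n | ∀ i < 0, n ∈ Q i} = Set.univ := by ext n; simp
        rw [this]; exact hDu
      | succ k ih =>
        have : {n | ∀ i < k + 1, n ∈ Q i} = {n | ∀ i < k, n ∈ Q i} ∩ Q k := by
          ext n
          simp only [Set.mem_ofPred_eq, Set.mem_inter_iff]
          constructor
          · exact fun h => ⟨fun i hi => h i (by omega), h k (by omega)⟩
          · rintro ⟨h1, h2⟩ i hi
            rcases Nat.lt_succ_iff_lt_or_eq.1 hi with h | h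
            · exact h1 i h
            · exact h ▸ h2
        rw [this]
        exact hD3 _ ih _ (hQ k)
    have hDUj : ∀ j, U j ∈ D := by
      intro j
      have h1 := hDb (fun j' => {n | ∀ i < j', n ∈ {n | n ∈ A i (v j') ↔ bb i}})
        (fun j' => hDb (fun i => {n | n ∈ A i (v j') ↔ bb i})
          (fun i => hDi _ _ (hD1 _ (hA i (v j')))) j') (j + 1)
      have h2 : U j = {n | ∀ i < j + 1, n ∈ (fun j' => {n | ∀ i < j',
          n ∈ {n | n ∈ A i (v j') ↔ bb i}}) i} := by
        rw [hU]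
        ext n
        constructor
        · intro h j' hj'
          exact h j' (by omega)
        · intro h j' hj'
          exact h j' (by omega)
      rw [h2]
      exact h1
    have hDge : ∀ j, {n | j ≤ n} ∈ D := by
      intro j
      rcases Nat.eq_zero_or_pos j with rfl | hj
      · have : {n : ℕ | 0 ≤ n} = Set.univ := by ext n; simp
        rw [this]; exact hDu
      · have : {n | j ≤ n} = {n | 1 ≤ n ∧ j ≤ n} := by
          ext n
          simp only [Set.mem_ofPred_eq]
          omega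
        rw [this]
        exact hD1 _ (isSpectrum_ge j)
    have hG : ∀ j, {n | j ≤ J n} ∈ D := by
      intro j
      have h1 : {n | j ≤ J n} = U j ∩ {n | j ≤ n} := by
        ext n
        constructor
        · intro h
          exact ⟨hUm h (hJU n), le_trans h (hJle n)⟩
        · rintro ⟨h1, h2⟩
          exact hJge n j h2 h1
      rw [h1]
      exact hD3 _ (hDUj j) _ (hDge j)
    obtain ⟨i, rfl⟩ := hA2 _ B hB
    have hlow : ∀ k, {n | J n < k ∧ n ∈ A i (v (J n))} ∈ D := by
      intro k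
      induction k with
      | zero =>
        have : {n | J n < 0 ∧ n ∈ A i (v (J n))} = ∅ := by ext n; simp
        rw [this]; exact hDe
      | succ k ih =>
        have : {n | J n < k + 1 ∧ n ∈ A i (v (J n))} = {n | J n < k ∧ n ∈ A i (v (J n))} ∪
            ({n | k ≤ J n} ∩ {n | k + 1 ≤ J n}ᶜ ∩ A i (v k)) := by
          ext n
          simp only [Set.mem_ofPred_eq, Set.mem_union, Set.mem_inter_iff, Set.mem_compl_iff]
          constructor
          · rintro ⟨h1, h2⟩
            by_cases h3 : J n < k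
            · exact Or.inl ⟨h3, h2⟩
            · have h4 : J n = k := by omega
              rw [h4] at h2
              exact Or.inr ⟨⟨by omega, by omega⟩, h2⟩
          · rintro (⟨h1, h2⟩ | ⟨⟨h1, h2⟩, h3⟩)
            · exact ⟨by omega, h2⟩
            · have h4 : J n = k := by omega
              rw [h4]
              exact ⟨by omega, h3⟩
        rw [this]
        exact hDU _ ih _ (hD3 _ (hD3 _ (hG k) _ (hD2 _ (hG (k + 1)))) _ (hD1 _ (hA i (v k))))
    have hfin : {n | n ∈ A i (v (J n))} = {n | J n < i + 1 ∧ n ∈ A i (v (J n))} ∪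
        ({n | i + 1 ≤ J n} ∩ {n | bb i}) := by
      ext n
      simp only [Set.mem_ofPred_eq, Set.mem_union, Set.mem_inter_iff]
      have h5 : i + 1 ≤ J n → (n ∈ A i (v (J n)) ↔ bb i) := by
        intro h
        have h6 := hJU n
        rw [hU] at h6
        exact h6 (J n) (le_refl _) i (by omega)
      constructor
      · intro h
        by_cases h1 : J n < i + 1
        · exact Or.inl ⟨h1, h⟩
        · exact Or.inr ⟨by omega, (h5 (by omega)).1 h⟩
      · rintro (⟨_, h⟩ | ⟨h1, h⟩)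
        · exact h
        · exact (h5 h1).2 h
    show {n | n ∈ A i (v (J n))} ∈ D
    rw [hfin]
    exact hDU _ (hlow (i + 1)) _ (hD3 _ (hG (i + 1)) _ (hDc _))

lemma zero_notMem_of_isSpectrum {A : Set ℕ} (hA : IsSpectrum A) : 0 ∉ A := by
  obtain ⟨L, hF, hR, φ, rfl⟩ := hA
  rintro ⟨h, _⟩
  omega

lemma IsRudimentary.compl' {A : Set ℕ} (hA : IsRudimentary A) : IsRudimentary Aᶜ := by
  rw [isRudimentary_iff] at hA ⊢
  exact (Rud.compl 1 _ hA).congr (by ext v; simp)

lemma IsRudimentary.inter' {A B : Set ℕ} (hA : IsRudimentary A) (hB : IsRudimentary B) :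
    IsRudimentary (A ∩ B) := by
  rw [isRudimentary_iff] at hA hB ⊢
  exact (Rud.inter 1 _ _ hA hB).congr (by ext v; simp)

/-- There is an unbounded function `s` such that `S_s` lies in the Boolean closure of the class `S`
of all spectra; so for this `s`, `RUD = S` if and only if `S_s = RUD`. -/
theorem unbounded_iff : ∃ s : ℕ → ℕ, (∀ b, ∃ n, b < s n) ∧
    (∀ A : Set ℕ, SetSpectrum s A → BoolSpectrum A) ∧
    ((∀ A : Set ℕ, 0 ∉ A → (IsSpectrum A ↔ IsRudimentary A)) ↔
      ∀ A : Set ℕ, 0 ∉ A → (SetSpectrum s A ↔ IsRudimentary A)) := by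
  obtain ⟨s, h1, h2⟩ := unbounded_scale
  refine ⟨s, h1, h2, fun hQ A hA0 => ⟨fun hA => ?_, fun hA => ?_⟩, fun hQ A hA0 =>
    ⟨fun hA => ?_, fun hA => hA.isSpectrum hA0⟩⟩
  · exact h2 A hA {B | IsRudimentary B}
      (fun B hB => (hQ B (zero_notMem_of_isSpectrum hB)).1 hB)
      (fun B hB => IsRudimentary.compl' hB) (fun B hB C hC => IsRudimentary.inter' hB hC)
  · exact smallSets.2.2.1 s A (Or.inl (hA.isSpectrum hA0))
  · exact (hQ A hA0).1 (smallSets.2.2.1 s A (Or.inl hA))

end Pool.Agent.Helper40.US
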