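import Pool.Agent.Helper14.SS.Defs

/-!
# Sentences with set quantifiers: only countably many up to renaming of the vocabulary
-/

set_option autoImplicit false

namespace Pool.Agent.Helper40.US

open FirstOrder FirstOrder.Language Pool.Agent.Helper20.Spectra Pool.Agent.Helper14.SS

/-- the vocabulary with function symbols `Fin a` of the arities `f` and relation symbols `Fin b` of
the arities `r` -/
def Lof (a b : ℕ) (f : Fin a → ℕ) (r : Fin b → ℕ) : FirstOrder.Language.{0, 0} :=
  ⟨fun n => {i : Fin a // f i = n}, fun n => {i : Fin b // r i = n}⟩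

instance countable_fun (a b : ℕ) (f : Fin a → ℕ) (r : Fin b → ℕ) :
    Countable (Σ l, (Lof a b f r).Functions l) := by
  have : ∀ l, Countable ((Lof a b f r).Functions l) := fun l =>
    inferInstanceAs (Countable {i : Fin a // f i = l})
  infer_instance

instance countable_rel (a b : ℕ) (f : Fin a → ℕ) (r : Fin b → ℕ) :
    Countable (Σ l, (Lof a b f r).Relations l) := by
  have : ∀ l, Countable ((Lof a b f r).Relations l) := fun l =>
    inferInstanceAs (Countable {i : Fin b // r i = l})
  infer_instance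

instance finite_fun (a b : ℕ) (f : Fin a → ℕ) (r : Fin b → ℕ) :
    Finite (Σ l, (Lof a b f r).Functions l) := by
  have h : Function.Injective
      (fun x : (Σ l, (Lof a b f r).Functions l) => (x.2 : {i : Fin a // f i = x.1}).1) := by
    rintro ⟨l, ⟨i, hi⟩⟩ ⟨l', ⟨i', hi'⟩⟩ h
    simp only at h
    subst h
    subst hi
    subst hi'
    rfl
  exact Finite.of_injective _ h

instance finite_rel (a b : ℕ) (f : Fin a → ℕ) (r : Fin b → ℕ) :
    Finite (Σ l, (Lof a b f r).Relations l) := by
  have h : Function.Injective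
      (fun x : (Σ l, (Lof a b f r).Relations l) => (x.2 : {i : Fin b // r i = x.1}).1) := by
    rintro ⟨l, ⟨i, hi⟩⟩ ⟨l', ⟨i', hi'⟩⟩ h
    simp only at h
    subst h
    subst hi
    subst hi'
    rfl
  exact Finite.of_injective _ h

/-- first-order formulas over a countable vocabulary are countable -/
lemma countable_formula (L : FirstOrder.Language.{0, 0}) [Countable (Σ l, L.Functions l)]
    [Countable (Σ l, L.Relations l)] (k : ℕ) : Countable (L.Formula (Fin k)) := by
  have h1 := BoundedFormula.card_le (L := L) (α := Fin k)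
  have h2 : L.card ≤ Cardinal.aleph0 := by
    have : Countable L.Symbols := inferInstanceAs (Countable ((Σ l, L.Functions l) ⊕ Σ l, L.Relations l))
    exact Cardinal.mk_le_aleph0
  have h3 : Cardinal.mk (Σ n, L.BoundedFormula (Fin k) n) ≤ Cardinal.aleph0 := by
    refine h1.trans ?_
    simp only [Cardinal.lift_id, max_le_iff, le_refl, true_and, Cardinal.mk_fin]
    exact Cardinal.add_le_aleph0.2 ⟨(Cardinal.natCast_lt_aleph0).le, by simpa using h2⟩
  have h4 : Countable (Σ n, L.BoundedFormula (Fin k) n) := Cardinal.mk_le_aleph0_iff.1 h3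
  exact Function.Injective.countable (f := fun φ : L.Formula (Fin k) =>
    (⟨0, φ⟩ : Σ n, L.BoundedFormula (Fin k) n)) (fun a b h => by simpa using h)

/-- the depth of a formula -/
def depth {L : FirstOrder.Language.{0, 0}} : {k m : ℕ} → SFm L k m → ℕ
  | _, _, .fo _ => 0
  | _, _, .mem _ _ => 0
  | _, _, .not φ => depth φ + 1
  | _, _, .and φ ψ => max (depth φ) (depth ψ) + 1
  | _, _, .ex φ => depth φ + 1
  | _, _, .exSet φ => depth φ + 1

lemma countable_depth (L : FirstOrder.Language.{0, 0}) [Countable (Σ l, L.Functions l)]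
    [Countable (Σ l, L.Relations l)] (d : ℕ) : ∀ k m : ℕ,
    {φ : SFm L k m | depth φ ≤ d}.Countable := by
  have hfo : ∀ k m : ℕ, (Set.range (fun φ : L.Formula (Fin k) => (SFm.fo φ : SFm L k m))).Countable :=
    fun k m => by
      have := countable_formula L k
      exact Set.countable_range _
  have hmem : ∀ k m : ℕ, (Set.range (fun p : Fin k × Fin m =>
      (SFm.mem p.1 p.2 : SFm L k m))).Countable := fun k m => Set.countable_range _
  induction d with
  | zero =>
    intro k m
    refine ((hfo k m).union (hmem k m)).mono ?_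
    intro φ hφ
    cases φ with
    | fo φ => exact Or.inl ⟨φ, rfl⟩
    | mem i j => exact Or.inr ⟨(i, j), rfl⟩
    | not φ => simp [depth] at hφ
    | and φ ψ => simp [depth] at hφ
    | ex φ => simp [depth] at hφ
    | exSet φ => simp [depth] at hφ
  | succ d ih =>
    intro k m
    refine ((((((hfo k m).union (hmem k m)).union ((ih k m).image SFm.not)).union
      (Set.Countable.image2 (ih k m) (ih k m) SFm.and)).union ((ih (k + 1) m).image SFm.ex)).union
      ((ih k (m + 1)).image SFm.exSet)).mono ?_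
    intro φ hφ
    cases φ with
    | fo φ => exact Or.inl (Or.inl (Or.inl (Or.inl (Or.inl ⟨φ, rfl⟩))))
    | mem i j => exact Or.inl (Or.inl (Or.inl (Or.inl (Or.inr ⟨(i, j), rfl⟩))))
    | not φ =>
      exact Or.inl (Or.inl (Or.inl (Or.inr ⟨φ, by simpa [depth] using hφ, rfl⟩)))
    | and φ ψ =>
      have h : max (depth φ) (depth ψ) ≤ d := by simpa [depth] using hφ
      exact Or.inl (Or.inl (Or.inr ⟨φ, (le_max_left _ _).trans h, ψ, (le_max_right _ _).trans h, rfl⟩))
    | ex φ => exact Or.inl (Or.inr ⟨φ, by simpa [depth] using hφ, rfl⟩)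
    | exSet φ => exact Or.inr ⟨φ, by simpa [depth] using hφ, rfl⟩

instance countable_sfm (L : FirstOrder.Language.{0, 0}) [Countable (Σ l, L.Functions l)]
    [Countable (Σ l, L.Relations l)] (k m : ℕ) : Countable (SFm L k m) := by
  have h : (Set.univ : Set (SFm L k m)).Countable := by
    refine (Set.countable_iUnion (fun d => countable_depth L d k m)).mono ?_
    intro φ _
    exact Set.mem_iUnion.2 ⟨depth φ, le_refl (depth φ)⟩
  exact Set.countable_univ_iff.1 h

/-! ## Translation along a map of vocabularies -/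

/-- translation of a formula -/
def mapS {L L' : FirstOrder.Language.{0, 0}} (h : L →ᴸ L') : {k m : ℕ} → SFm L k m → SFm L' k m
  | _, _, .fo φ => .fo (h.onFormula φ)
  | _, _, .mem i j => .mem i j
  | _, _, .not φ => .not (mapS h φ)
  | _, _, .and φ ψ => .and (mapS h φ) (mapS h ψ)
  | _, _, .ex φ => .ex (mapS h φ)
  | _, _, .exSet φ => .exSet (mapS h φ)

lemma holds_mapS {L L' : FirstOrder.Language.{0, 0}} (h : L →ᴸ L') {M : Type} [L.Structure M]
    [L'.Structure M] [h.IsExpansionOn M] (b : ℕ) {k m : ℕ} (φ : SFm L k m) :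
    ∀ (v : Fin k → M) (V : Fin m → Finset M), (mapS h φ).Holds b v V ↔ φ.Holds b v V := by
  induction φ with
  | fo φ => intro v V; exact LHom.realize_onFormula h φ
  | mem i j => intro v V; exact Iff.rfl
  | not φ ih => intro v V; exact not_congr (ih v V)
  | and φ ψ ih1 ih2 => intro v V; exact and_congr (ih1 v V) (ih2 v V)
  | ex φ ih => intro v V; exact exists_congr (fun x => ih _ V)
  | exSet φ ih => intro v V; exact exists_congr (fun X => and_congr Iff.rfl (ih v _))

/-- every finite vocabulary is one of the vocabularies `Lof` -/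
lemma exists_lof (L : FirstOrder.Language.{0, 0}) [hF : Finite (Σ l, L.Functions l)]
    [hR : Finite (Σ l, L.Relations l)] :
    ∃ (a b : ℕ) (f : Fin a → ℕ) (r : Fin b → ℕ) (h : L →ᴸ Lof a b f r),
      ∀ (M : Type) (S : L.Structure M), ∃ S' : (Lof a b f r).Structure M,
        @LHom.IsExpansionOn _ _ h M S S' := by
  obtain ⟨a, ⟨e⟩⟩ := Finite.exists_equiv_fin (Σ l, L.Functions l)
  obtain ⟨b, ⟨d⟩⟩ := Finite.exists_equiv_fin (Σ l, L.Relations l)
  refine ⟨a, b, fun i => (e.symm i).1, fun i => (d.symm i).1,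
    ⟨fun {n} x => ⟨e ⟨n, x⟩, by simp⟩, fun {n} x => ⟨d ⟨n, x⟩, by simp⟩⟩, fun M S => ?_⟩
  let S' : (Lof a b (fun i => (e.symm i).1) (fun i => (d.symm i).1)).Structure M :=
    ⟨fun {n} x v => S.funMap (e.symm x.1).2 (fun j => v (Fin.cast x.2 j)),
      fun {n} x v => S.RelMap (d.symm x.1).2 (fun j => v (Fin.cast x.2 j))⟩
  refine ⟨S', @LHom.IsExpansionOn.mk _ _ _ M S S' ?_ ?_⟩
  · intro n x v
    have key : ∀ (p : Σ l, L.Functions l) (hp : p.1 = n) (x : L.Functions n) (hx : p = ⟨n, x⟩),
        S.funMap p.2 (fun j => v (Fin.cast hp j)) = S.funMap x v := by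
      rintro p hp x rfl
      rfl
    exact key (e.symm (e ⟨n, x⟩)) (by simp) x (by simp)
  · intro n x v
    have key : ∀ (p : Σ l, L.Relations l) (hp : p.1 = n) (x : L.Relations n) (hx : p = ⟨n, x⟩),
        S.RelMap p.2 (fun j => v (Fin.cast hp j)) = S.RelMap x v := by
      rintro p hp x rfl
      rfl
    exact key (d.symm (d ⟨n, x⟩)) (by simp) x (by simp)

/-- codes of sentences -/
abbrev Sen : Type := Σ (a b : ℕ) (f : Fin a → ℕ) (r : Fin b → ℕ), SFm (Lof a b f r) 0 0

/-- Enumeration of all sentences: the sets `A i v` are the spectra with constant bound `v`. -/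
theorem enumeration : ∃ A : ℕ → ℕ → Set ℕ,
    (∀ i v, SetSpectrum (fun _ => v) (A i v)) ∧
    ∀ (s : ℕ → ℕ) (B : Set ℕ), SetSpectrum s B → ∃ i, B = {n | n ∈ A i (s n)} := by
  have hc : Countable Sen := inferInstance
  have hn : Nonempty Sen := ⟨⟨0, 0, Fin.elim0, Fin.elim0, .fo ⊥⟩⟩
  obtain ⟨g, hg⟩ := exists_surjective_nat Sen
  refine ⟨fun i v => specS (fun _ => v) (g i).2.2.2.2, fun i v => ?_, fun s B hB => ?_⟩
  · exact ⟨_, inferInstance, inferInstance, (g i).2.2.2.2, rfl⟩
  · obtain ⟨L, hF, hR, Φ, rfl⟩ := hB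
    obtain ⟨a, b, f, r, h, hS⟩ := exists_lof L
    obtain ⟨i, hi⟩ := hg ⟨a, b, f, r, mapS h Φ⟩
    refine ⟨i, ?_⟩
    show _ = {n | n ∈ specS (fun _ => s n) (g i).2.2.2.2}
    rw [hi]
    ext n
    refine and_congr Iff.rfl ?_
    constructor
    · rintro ⟨M, S, F, hc, h1⟩
      obtain ⟨S', hE⟩ := hS M S
      exact ⟨M, S', F, hc, (holds_mapS h _ Φ _ _).2 h1⟩
    · rintro ⟨M, S', F, hc, h1⟩
      let S : L.Structure M := h.reduct M
      exact ⟨M, S, F, hc, (holds_mapS h _ Φ _ _).1 h1⟩

end Pool.Agent.Helper40.US
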